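import Mathlib

/-!
# The norm of a Banach space can be weakly Baire measurable on a dense subspace only
-/

set_option autoImplicit false

open Filter Topology MeasureTheory Set

namespace Pool.Agent.Q304.WB

/-- The Baire sigma-algebra of the weak topology: generated by all weakly continuous real
functions. -/
def weakBaire (X : Type*) [NormedAddCommGroup X] [NormedSpace ℝ X] : MeasurableSpace X :=
  ⨆ (F : X → ℝ) (_ : Continuous fun x : WeakSpace ℝ X => F ((toWeakSpace ℝ X).symm x)),
    MeasurableSpace.comap F (borel ℝ)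

lemma measurable_clm {X : Type*} [NormedAddCommGroup X] [NormedSpace ℝ X] (f : X →L[ℝ] ℝ) :
    Measurable[weakBaire X, borel ℝ] (fun x : X => f x) := by
  have hc : Continuous fun x : WeakSpace ℝ X => f ((toWeakSpace ℝ X).symm x) :=
    WeakBilin.eval_continuous (topDualPairing ℝ X).flip f
  rw [measurable_iff_comap_le]
  exact le_iSup₂ (f := fun (F : X → ℝ)
    (_ : Continuous fun x : WeakSpace ℝ X => F ((toWeakSpace ℝ X).symm x)) =>
      MeasurableSpace.comap F (borel ℝ)) (fun x => f x) hc

/-- The index set of the linearly independent family. -/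
abbrev I : Type := Ioo (0 : ℝ) 1

instance : StandardBorelSpace I := measurableSet_Ioo.standardBorel

/-- Nonseparable Hilbert space. -/
abbrev Y : Type := lp (fun _ : ℝ => ℝ) 2

/-- Bounded sequences. -/
abbrev Z : Type := BoundedContinuousFunction ℕ ℝ

/-- Geometric sequences. -/
noncomputable def w (t : I) : Z :=
  BoundedContinuousFunction.ofNormedAddCommGroupDiscrete (fun k : ℕ => (t : ℝ) ^ k) 1 (by
    intro k
    rw [Real.norm_eq_abs, abs_pow, abs_of_pos t.2.1]
    exact pow_le_one₀ t.2.1.le t.2.2.le)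

lemma w_apply (t : I) (k : ℕ) : w t k = (t : ℝ) ^ k := rfl

lemma norm_w (t : I) : ‖w t‖ ≤ 1 := by
  refine (BoundedContinuousFunction.norm_le zero_le_one).2 fun k => ?_
  rw [w_apply, Real.norm_eq_abs, abs_pow, abs_of_pos t.2.1]
  exact pow_le_one₀ t.2.1.le t.2.2.le

/-- Multiplicity. -/
noncomputable def fl (t : I) : ℝ := ((⌊(1 : ℝ) / t⌋ : ℤ) : ℝ)

/-- Coordinate. -/
noncomputable def fr (t : I) : ℝ := Int.fract ((1 : ℝ) / t)

/-- Unit vectors of the Hilbert space. -/
noncomputable def ee (g : ℝ) : Y := lp.single 2 g (1 : ℝ)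

/-- The vectors spanning the dense subspace. -/
noncomputable def v (t : I) : Y × Z := (fl t • ee (fr t), w t)

/-- The linear map. -/
noncomputable def L : (I →₀ ℝ) →ₗ[ℝ] Y × Z := Finsupp.linearCombination ℝ v

lemma L_snd (f : I →₀ ℝ) (k : ℕ) : (L f).2 k = f.sum fun t c => c * (t : ℝ) ^ k := by
  classical
  induction f using Finsupp.induction_linear with
  | zero => simp [L]
  | add f g hf hg =>
    rw [map_add, Prod.snd_add, BoundedContinuousFunction.add_apply, hf, hg,
      Finsupp.sum_add_index']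
    · intro t; simp
    · intro t a b; ring
  | single t c =>
    rw [L, Finsupp.linearCombination_single, Finsupp.sum_single_index (by simp)]
    rfl

lemma lin_indep {f : I →₀ ℝ} (hf : ∀ k : ℕ, (f.sum fun t c => c * (t : ℝ) ^ k) = 0) : f = 0 := by
  classical
  have hp : ∀ p : Polynomial ℝ, (f.sum fun t c => c * p.eval (t : ℝ)) = 0 := by
    intro p
    induction p using Polynomial.induction_on' with
    | add p q hp hq =>
      simp only [Polynomial.eval_add, mul_add]
      rw [Finsupp.sum_add, hp, hq, add_zero]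
    | monomial n a =>
      have := hf n
      simp only [Polynomial.eval_monomial]
      have h2 : (f.sum fun t c => c * (a * (t : ℝ) ^ n)) = a * f.sum fun t c => c * (t : ℝ) ^ n := by
        rw [Finsupp.mul_sum]
        refine Finsupp.sum_congr fun t _ => ?_
        ring
      rw [h2, this, mul_zero]
  by_contra hne
  obtain ⟨t₀, ht₀⟩ := Finsupp.support_nonempty_iff.2 hne
  set p : Polynomial ℝ := ∏ t ∈ f.support.erase t₀, (Polynomial.X - Polynomial.C (t : ℝ)) with hpdef
  have h1 := hp p
  rw [Finsupp.sum, ← Finset.add_sum_erase _ _ ht₀] at h1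
  have h2 : ∑ t ∈ f.support.erase t₀, f t * p.eval (t : ℝ) = 0 := by
    refine Finset.sum_eq_zero fun t ht => ?_
    have : p.eval (t : ℝ) = 0 := by
      rw [hpdef, Polynomial.eval_prod]
      exact Finset.prod_eq_zero ht (by simp)
    rw [this, mul_zero]
  rw [h2, add_zero] at h1
  have h3 : p.eval (t₀ : ℝ) ≠ 0 := by
    rw [hpdef, Polynomial.eval_prod, Finset.prod_ne_zero_iff]
    intro t ht
    rw [Polynomial.eval_sub, Polynomial.eval_X, Polynomial.eval_C, sub_ne_zero]
    exact fun h => (Finset.ne_of_mem_erase ht) (Subtype.ext h.symm)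
  rcases mul_eq_zero.1 h1 with h | h
  · exact (Finsupp.mem_support_iff.1 ht₀) h
  · exact h3 h

/-- Coordinates in the second component. -/
noncomputable def crd (x : Y × Z) (k : ℕ) : ℝ := x.2 k

lemma crd_inj {f g : I →₀ ℝ} (h : crd (L f) = crd (L g)) : f = g := by
  rw [← sub_eq_zero]
  apply lin_indep
  intro k
  rw [← L_snd, map_sub]
  have := congrFun h k
  rw [crd, crd] at this
  show (L f).2 k - (L g).2 k = 0
  rw [this, sub_self]

/-- Parameters of `m`-fold combinations. -/
def P (m : ℕ) : Set ((Fin m → I) × (Fin m → ℝ)) := {p | StrictMono p.1 ∧ ∀ j, p.2 j ≠ 0}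

/-- The combination with given parameters. -/
noncomputable def toF {m : ℕ} (p : (Fin m → I) × (Fin m → ℝ)) : I →₀ ℝ :=
  ∑ j, Finsupp.single (p.1 j) (p.2 j)

lemma measurableSet_P (m : ℕ) : MeasurableSet (P m) := by
  have h1 : MeasurableSet {p : (Fin m → I) × (Fin m → ℝ) | StrictMono p.1} := by
    have : {p : (Fin m → I) × (Fin m → ℝ) | StrictMono p.1} =
        ⋂ i, ⋂ j, ⋂ (_ : i < j), {p : (Fin m → I) × (Fin m → ℝ) | ((p.1 i : I) : ℝ) < p.1 j} := by
      ext p
      simp only [mem_setOf_eq, mem_iInter]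
      exact ⟨fun h i j hij => h hij, fun h i j hij => h i j hij⟩
    rw [this]
    refine MeasurableSet.iInter fun i => MeasurableSet.iInter fun j => MeasurableSet.iInter fun _ => ?_
    exact measurableSet_lt (by fun_prop) (by fun_prop)
  have h2 : MeasurableSet {p : (Fin m → I) × (Fin m → ℝ) | ∀ j, p.2 j ≠ 0} := by
    have : {p : (Fin m → I) × (Fin m → ℝ) | ∀ j, p.2 j ≠ 0} =
        ⋂ j, {p : (Fin m → I) × (Fin m → ℝ) | p.2 j = 0}ᶜ := by
      ext p; simp
    rw [this]
    refine MeasurableSet.iInter fun j => MeasurableSet.compl ?_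
    exact measurableSet_eq_fun (by fun_prop) (by fun_prop)
  exact h1.inter h2

lemma toF_apply {m : ℕ} {p : (Fin m → I) × (Fin m → ℝ)} (hp : p ∈ P m) (j : Fin m) :
    toF p (p.1 j) = p.2 j := by
  classical
  rw [toF, Finsupp.finset_sum_apply, Finset.sum_eq_single j]
  · simp
  · intro i _ hi
    rw [Finsupp.single_apply, if_neg]
    exact fun h => hi (hp.1.injective h)
  · simp

lemma toF_support {m : ℕ} {p : (Fin m → I) × (Fin m → ℝ)} (hp : p ∈ P m) :
    ((toF p).support : Set I) = range p.1 := by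
  classical
  ext t
  rw [Finset.mem_coe, Finsupp.mem_support_iff]
  constructor
  · intro h
    by_contra hc
    apply h
    rw [toF, Finsupp.finset_sum_apply]
    refine Finset.sum_eq_zero fun j _ => ?_
    rw [Finsupp.single_apply, if_neg]
    exact fun h => hc ⟨j, h⟩
  · rintro ⟨j, rfl⟩
    rw [toF_apply hp]
    exact hp.2 j

lemma toF_injOn (m : ℕ) : InjOn (toF (m := m)) (P m) := by
  intro p hp q hq h
  have h1 : range p.1 = range q.1 := by rw [← toF_support hp, ← toF_support hq, h]
  have h2 : p.1 = q.1 := (StrictMono.range_inj hp.1 hq.1).1 h1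
  have h3 : p.2 = q.2 := by
    funext j
    rw [← toF_apply hp j, ← toF_apply hq j, h, h2]
  exact Prod.ext h2 h3

lemma exists_toF (f : I →₀ ℝ) : ∃ m, ∃ p ∈ P m, toF p = f := by
  classical
  refine ⟨f.support.card, (fun j => f.support.orderEmbOfFin rfl j,
    fun j => f (f.support.orderEmbOfFin rfl j)), ⟨?_, ?_⟩, ?_⟩
  · exact (f.support.orderEmbOfFin rfl).strictMono
  · intro j
    exact Finsupp.mem_support_iff.1 (Finset.orderEmbOfFin_mem _ _ _)
  · rw [toF]
    conv_rhs => rw [← Finsupp.sum_single f, Finsupp.sum]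
    have h1 : f.support = Finset.univ.map (f.support.orderEmbOfFin rfl).toEmbedding := by
      ext t
      rw [Finset.mem_map]
      have := Finset.range_orderEmbOfFin f.support rfl
      constructor
      · intro ht
        have : t ∈ range (f.support.orderEmbOfFin rfl) := by rw [this]; exact ht
        obtain ⟨j, hj⟩ := this
        exact ⟨j, Finset.mem_univ _, hj⟩
      · rintro ⟨j, _, rfl⟩
        exact Finset.orderEmbOfFin_mem _ _ _
    conv_rhs => rw [h1, Finset.sum_map]
    rfl

/-- The coordinates of a combination as a function of the parameters. -/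
noncomputable def Φ (m : ℕ) (p : (Fin m → I) × (Fin m → ℝ)) (k : ℕ) : ℝ :=
  ∑ j, p.2 j * ((p.1 j : I) : ℝ) ^ k

lemma crd_toF {m : ℕ} (p : (Fin m → I) × (Fin m → ℝ)) : crd (L (toF p)) = Φ m p := by
  funext k
  rw [crd, toF, map_sum, Prod.snd_sum]
  rw [Φ]
  have : ∀ s : Finset (Fin m), (∑ j ∈ s, (L (Finsupp.single (p.1 j) (p.2 j))).2) k =
      ∑ j ∈ s, p.2 j * ((p.1 j : I) : ℝ) ^ k := by
    classical
    intro s
    induction s using Finset.induction_on with
    | empty => simp
    | insert a s ha ih =>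
      rw [Finset.sum_insert ha, Finset.sum_insert ha, BoundedContinuousFunction.add_apply, ih,
        L_snd, Finsupp.sum_single_index (by simp)]
  exact this _

lemma Φ_injOn (m : ℕ) : InjOn (Φ m) (P m) := by
  intro p hp q hq h
  rw [← crd_toF, ← crd_toF] at h
  exact toF_injOn m hp hq (crd_inj h)

lemma measurable_Φ (m : ℕ) : Measurable (Φ m) := by
  refine measurable_pi_lambda _ fun k => ?_
  unfold Φ
  fun_prop

lemma L_fst {m : ℕ} (p : (Fin m → I) × (Fin m → ℝ)) :
    (L (toF p)).1 = ∑ j, (p.2 j * fl (p.1 j)) • ee (fr (p.1 j)) := by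
  rw [toF, map_sum, Prod.fst_sum]
  refine Finset.sum_congr rfl fun j _ => ?_
  rw [L, Finsupp.linearCombination_single, Prod.smul_fst, v, smul_smul]

lemma inner_ee (a b : ℝ) : inner ℝ (ee a) (ee b) = if a = b then (1 : ℝ) else 0 := by
  classical
  rw [ee, lp.inner_single_left, ee, lp.single_apply]
  by_cases h : a = b
  · subst h; simp
  · simp [h]

lemma norm_fst {m : ℕ} (p : (Fin m → I) × (Fin m → ℝ)) :
    ‖(L (toF p)).1‖ = Real.sqrt (∑ i, ∑ j, (p.2 i * fl (p.1 i)) * (p.2 j * fl (p.1 j)) *
      (if fr (p.1 i) = fr (p.1 j) then 1 else 0)) := by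
  rw [L_fst, @norm_eq_sqrt_real_inner Y]
  congr 1
  rw [sum_inner]
  refine Finset.sum_congr rfl fun i _ => ?_
  rw [inner_sum]
  refine Finset.sum_congr rfl fun j _ => ?_
  rw [real_inner_smul_left, real_inner_smul_right, inner_ee]
  ring

lemma norm_snd {m : ℕ} (p : (Fin m → I) × (Fin m → ℝ)) :
    ‖(L (toF p)).2‖ = ⨆ k : ℕ, |Φ m p k| := by
  rw [BoundedContinuousFunction.norm_eq_iSup_norm]
  refine iSup_congr fun k => ?_
  rw [Real.norm_eq_abs, ← crd_toF]
  rfl

lemma measurable_fl : Measurable fl := by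
  unfold fl
  have h1 : Measurable fun t : I => (1 : ℝ) / t := measurable_const.div measurable_subtype_coe
  have h2 : Measurable fun x : ℤ => (x : ℝ) := measurable_from_top
  exact h2.comp (Int.measurable_floor.comp h1)

lemma measurable_fr : Measurable fr := by
  unfold fr
  have h1 : Measurable fun t : I => (1 : ℝ) / t := measurable_const.div measurable_subtype_coe
  exact measurable_fract.comp h1

lemma measurable_norm (m : ℕ) :
    Measurable fun p : (Fin m → I) × (Fin m → ℝ) => ‖L (toF p)‖ := by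
  simp only [Prod.norm_def]
  refine Measurable.max ?_ ?_
  · simp only [norm_fst]
    refine Real.continuous_sqrt.measurable.comp ?_
    refine Finset.measurable_sum _ fun i _ => Finset.measurable_sum _ fun j _ => ?_
    have hf : ∀ i, Measurable fun p : (Fin m → I) × (Fin m → ℝ) => fl (p.1 i) := fun i =>
      measurable_fl.comp ((measurable_pi_apply i).comp measurable_fst)
    have hr : ∀ i, Measurable fun p : (Fin m → I) × (Fin m → ℝ) => fr (p.1 i) := fun i =>
      measurable_fr.comp ((measurable_pi_apply i).comp measurable_fst)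
    have hc : ∀ i, Measurable fun p : (Fin m → I) × (Fin m → ℝ) => p.2 i := fun i =>
      (measurable_pi_apply i).comp measurable_snd
    refine (((hc i).mul (hf i)).mul ((hc j).mul (hf j))).mul ?_
    exact Measurable.ite (measurableSet_eq_fun (hr i) (hr j)) measurable_const measurable_const
  · simp only [norm_snd]
    refine Measurable.iSup fun k => ?_
    exact ((measurable_pi_apply k).comp (measurable_Φ m)).abs

open Classical in
/-- The norm as a function of the coordinates. -/
noncomputable def H (s : ℕ → ℝ) : ℝ := if h : ∃ f : I →₀ ℝ, crd (L f) = s then ‖L h.choose‖ else 0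

lemma H_crd (f : I →₀ ℝ) : H (crd (L f)) = ‖L f‖ := by
  have h : ∃ g : I →₀ ℝ, crd (L g) = crd (L f) := ⟨f, rfl⟩
  rw [H, dif_pos h, crd_inj h.choose_spec]

lemma measurable_H : Measurable H := by
  classical
  intro B hB
  have hV : ∀ (C : Set ℝ), MeasurableSet C → MeasurableSet
      (⋃ m, Φ m '' (P m ∩ {p | ‖L (toF p)‖ ∈ C})) := fun C hC => MeasurableSet.iUnion fun m =>
    ((measurableSet_P m).inter (measurable_norm m hC)).image_of_measurable_injOn (measurable_Φ m)
      ((Φ_injOn m).mono inter_subset_left)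
  have h1 : H ⁻¹' B = (⋃ m, Φ m '' (P m ∩ {p | ‖L (toF p)‖ ∈ B})) ∪
      ((⋃ m, Φ m '' (P m ∩ {p | ‖L (toF p)‖ ∈ (univ : Set ℝ)}))ᶜ ∩
        (if (0 : ℝ) ∈ B then univ else ∅)) := by
    ext s
    by_cases hs : ∃ f : I →₀ ℝ, crd (L f) = s
    · obtain ⟨f, rfl⟩ := hs
      obtain ⟨m, p, hp, rfl⟩ := exists_toF f
      have hin : crd (L (toF p)) ∈ ⋃ m, Φ m '' (P m ∩ {p | ‖L (toF p)‖ ∈ (univ : Set ℝ)}) :=
        mem_iUnion.2 ⟨m, p, ⟨hp, mem_univ _⟩, (crd_toF p).symm⟩
      rw [mem_preimage, H_crd, mem_union, mem_inter_iff, mem_compl_iff]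
      constructor
      · intro h
        exact Or.inl (mem_iUnion.2 ⟨m, p, ⟨hp, h⟩, (crd_toF p).symm⟩)
      · rintro (h | h)
        · obtain ⟨m', q, ⟨hq, hqB⟩, hqe⟩ := mem_iUnion.1 h
          rw [← crd_toF] at hqe
          rw [← crd_inj hqe]
          exact hqB
        · exact (h.1 hin).elim
    · have hnot : ∀ C : Set ℝ, s ∉ ⋃ m, Φ m '' (P m ∩ {p | ‖L (toF p)‖ ∈ C}) := by
        intro C hC
        obtain ⟨m, q, _, hqe⟩ := mem_iUnion.1 hC
        exact hs ⟨toF q, by rw [crd_toF]; exact hqe⟩
      rw [mem_preimage, H, dif_neg hs, mem_union, mem_inter_iff, mem_compl_iff]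
      constructor
      · intro h
        exact Or.inr ⟨hnot _, by rw [if_pos h]; exact mem_univ _⟩
      · rintro (h | h)
        · exact (hnot _ h).elim
        · by_contra hc
          have := h.2
          rw [if_neg hc] at this
          exact this
  rw [h1]
  refine (hV B hB).union ((hV univ MeasurableSet.univ).compl.inter ?_)
  split_ifs
  · exact MeasurableSet.univ
  · exact MeasurableSet.empty

/-- The dense subspace inside the big space. -/
noncomputable def A' : Submodule ℝ (Y × Z) := LinearMap.range L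

/-- The Banach space. -/
abbrev X : Type := (A'.topologicalClosure : Submodule ℝ (Y × Z))

/-- The dense subspace. -/
noncomputable def A : Submodule ℝ X := A'.comap A'.topologicalClosure.subtype

instance : CompleteSpace X :=
  (Submodule.isClosed_topologicalClosure A').completeSpace_coe

lemma dense_A : Dense (A : Set X) := by
  intro x
  rw [Metric.mem_closure_iff]
  intro ε hε
  have hx : (x : Y × Z) ∈ closure (A' : Set (Y × Z)) := x.2
  obtain ⟨a, ha, had⟩ := Metric.mem_closure_iff.1 hx ε hε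
  exact ⟨⟨a, A'.le_topologicalClosure ha⟩, ha, had⟩

/-- Measurability of the norm on the dense subspace. -/
theorem measurable_A :
    Measurable[MeasurableSpace.comap Subtype.val (weakBaire X), borel ℝ]
      (fun a : A => ‖(a : X)‖) := by
  have h1 : @Measurable X (ℕ → ℝ) (weakBaire X) _ (fun x : X => crd (x : Y × Z)) := by
    refine @measurable_pi_lambda X ℕ (fun _ => ℝ) (weakBaire X) _ _ fun k => ?_
    have h := measurable_clm (X := X) ((BoundedContinuousFunction.evalCLM ℝ k).comp
      ((ContinuousLinearMap.snd ℝ Y Z).comp A'.topologicalClosure.subtypeₗᵢ.toContinuousLinearMap))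
    rw [← BorelSpace.measurable_eq (α := ℝ)] at h
    exact h
  have h2 : @Measurable X ℝ (weakBaire X) _ (fun x : X => H (crd (x : Y × Z))) :=
    measurable_H.comp h1
  have h3 : (fun a : A => ‖(a : X)‖) = (fun x : X => H (crd (x : Y × Z))) ∘ Subtype.val := by
    funext a
    obtain ⟨f, hf⟩ := a.2
    show ‖((a : X) : Y × Z)‖ = H (crd ((a : X) : Y × Z))
    have : ((a : X) : Y × Z) = L f := hf.symm
    rw [this, H_crd]
  rw [h3, ← BorelSpace.measurable_eq (α := ℝ)]
  exact h2.comp (comap_measurable Subtype.val)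

lemma mem_closure_ee {g : ℝ} (hg : g ∈ Ico (0 : ℝ) 1) :
    ((ee g, 0) : Y × Z) ∈ A'.topologicalClosure := by
  have hpos : ∀ n : ℕ, (0 : ℝ) < n + 2 + g := fun n => by have := hg.1; positivity
  have hmem : ∀ n : ℕ, 1 / ((n : ℝ) + 2 + g) ∈ Ioo (0 : ℝ) 1 := fun n => by
    refine ⟨by have := hpos n; positivity, ?_⟩
    rw [div_lt_one (hpos n)]
    have := hg.1
    have : (0 : ℝ) ≤ n := by positivity
    linarith
  set t : ℕ → I := fun n => ⟨_, hmem n⟩ with ht
  have h1 : ∀ n, (1 : ℝ) / (t n : ℝ) = ((n + 2 : ℕ) : ℝ) + g := fun n => by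
    simp only [ht, one_div_one_div]
    push_cast
    ring
  have hfl : ∀ n, fl (t n) = ((n + 2 : ℕ) : ℝ) := by
    intro n
    rw [fl, h1]
    have : ⌊((n + 2 : ℕ) : ℝ) + g⌋ = ((n + 2 : ℕ) : ℤ) := by
      rw [Int.floor_eq_iff]
      constructor
      · push_cast; linarith [hg.1]
      · push_cast; linarith [hg.2]
    rw [this]
    push_cast
    rfl
  have hfr : ∀ n, fr (t n) = g := by
    intro n
    rw [fr, h1, Int.fract_natCast_add, Int.fract_eq_self.2 hg]
  have hlim : Tendsto (fun n : ℕ => ((1 : ℝ) / ((n + 2 : ℕ) : ℝ)) • v (t n)) atTop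
      (𝓝 ((ee g, 0) : Y × Z)) := by
    have h2 : ∀ n, ((1 : ℝ) / ((n + 2 : ℕ) : ℝ)) • v (t n) =
        (ee g, ((1 : ℝ) / ((n + 2 : ℕ) : ℝ)) • w (t n)) := by
      intro n
      rw [v, hfl, hfr, Prod.smul_mk, smul_smul, one_div, inv_mul_cancel₀, one_smul]
      positivity
    simp only [h2]
    refine Tendsto.prodMk_nhds tendsto_const_nhds ?_
    rw [tendsto_zero_iff_norm_tendsto_zero]
    refine squeeze_zero (fun n => norm_nonneg _) (fun n => ?_)
      ((tendsto_one_div_add_atTop_nhds_zero_nat (𝕜 := ℝ)).comp (tendsto_add_atTop_nat 1))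
    rw [norm_smul, Real.norm_eq_abs, abs_of_pos (by positivity)]
    simp only [Function.comp]
    push_cast
    calc 1 / ((n : ℝ) + 2) * ‖w (t n)‖ ≤ 1 / ((n : ℝ) + 2) * 1 :=
          mul_le_mul_of_nonneg_left (norm_w _) (by positivity)
      _ = 1 / ((n : ℝ) + 1 + 1) := by rw [mul_one]; ring_nf
  refine mem_closure_of_tendsto hlim (Eventually.of_forall fun n => ?_)
  apply A'.smul_mem
  exact ⟨Finsupp.single (t n) 1, by rw [L, Finsupp.linearCombination_single, one_smul]⟩

/-- The unit vectors inside `X`. -/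
noncomputable def eX (g : Ico (0 : ℝ) 1) : X := ⟨(ee g, 0), mem_closure_ee g.2⟩

lemma norm_eX (g : Ico (0 : ℝ) 1) : ‖eX g‖ = 1 := by
  show ‖((ee g, 0) : Y × Z)‖ = 1
  have h : ‖ee (g : ℝ)‖ = 1 := by
    rw [ee, lp.norm_single (by norm_num)]
    simp
  rw [Prod.norm_def, h]
  simp

lemma tendsto_clm (f : X →L[ℝ] ℝ) : Tendsto (fun g => f (eX g)) cofinite (𝓝 0) := by
  obtain ⟨G, hG, _⟩ := exists_extension_norm_eq A'.topologicalClosure f
  set φ : Y →L[ℝ] ℝ := G.comp (ContinuousLinearMap.inl ℝ Y Z) with hφ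
  obtain ⟨y, hy⟩ : ∃ y : Y, ∀ x, φ x = inner ℝ y x := by
    refine ⟨(InnerProductSpace.toDual ℝ Y).symm φ, fun x => ?_⟩
    rw [InnerProductSpace.toDual_symm_apply]
  have h1 : ∀ g : Ico (0 : ℝ) 1, f (eX g) = y (g : ℝ) := by
    intro g
    have h2 : f (eX g) = φ (ee g) := by
      rw [hφ, ← hG (eX g)]
      rfl
    rw [h2, hy, ee, lp.inner_single_right]
    simp
  simp only [h1]
  have h3 : Summable fun g : ℝ => ‖y g‖ ^ (2 : ENNReal).toReal :=
    (lp.memℓp y).summable (by norm_num)
  have h4 : Tendsto (fun g : ℝ => ‖y g‖ ^ (2 : ENNReal).toReal) cofinite (𝓝 0) :=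
    h3.tendsto_cofinite_zero
  have h5 : Tendsto (fun g : ℝ => y g) cofinite (𝓝 0) := by
    rw [tendsto_zero_iff_norm_tendsto_zero]
    have h6 : Tendsto (fun g : ℝ => Real.sqrt (‖y g‖ ^ (2 : ENNReal).toReal)) cofinite
        (𝓝 (Real.sqrt 0)) := (Real.continuous_sqrt.tendsto 0).comp h4
    rw [Real.sqrt_zero] at h6
    refine h6.congr fun g => ?_
    simp [Real.sqrt_sq_eq_abs]
  exact h5.comp Subtype.val_injective.tendsto_cofinite

lemma tendsto_eX : Tendsto (fun g => toWeakSpace ℝ X (eX g)) cofinite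
    (𝓝 (toWeakSpace ℝ X 0)) := by
  have hinj : Function.Injective (topDualPairing ℝ X).flip := by
    intro x y hxy
    by_contra hne
    obtain ⟨f, hf⟩ := SeparatingDual.exists_separating_of_ne (R := ℝ) hne
    exact hf (LinearMap.congr_fun hxy f)
  refine (WeakBilin.tendsto_iff_forall_eval_tendsto (topDualPairing ℝ X).flip hinj).2 fun f => ?_
  have h1 := tendsto_clm f
  have h2 : (topDualPairing ℝ X).flip (toWeakSpace ℝ X 0) f = 0 := by
    show f 0 = 0
    exact map_zero f
  rw [h2]
  exact h1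

/-- The norm is not measurable on `X`. -/
theorem not_measurable_norm : ¬ Measurable[weakBaire X, borel ℝ] (fun x : X => ‖x‖) := by
  intro hmeas
  -- the sigma-algebra of sets that do not separate zero from uncountably many unit vectors
  let ms : MeasurableSpace X :=
    { MeasurableSet' := fun B => {g : Ico (0 : ℝ) 1 | ¬ (eX g ∈ B ↔ (0 : X) ∈ B)}.Countable
      measurableSet_empty := by simp
      measurableSet_compl := by
        intro B hB
        refine hB.mono fun g hg => ?_
        simp only [mem_setOf_eq, mem_compl_iff] at hg ⊢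
        exact fun h => hg (not_congr h)
      measurableSet_iUnion := by
        intro B hB
        refine (countable_iUnion hB).mono fun g hg => ?_
        by_contra hc
        apply hg
        simp only [mem_iUnion, mem_setOf_eq, not_exists, not_not] at hc ⊢
        exact exists_congr hc }
  have hle : weakBaire X ≤ ms := by
    refine iSup₂_le fun F hF => ?_
    rintro _ ⟨C, -, rfl⟩
    have h1 : Tendsto (fun g => F (eX g)) cofinite (𝓝 (F 0)) := by
      have := (hF.tendsto (toWeakSpace ℝ X 0)).comp tendsto_eX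
      exact this
    have h2 : {g : Ico (0 : ℝ) 1 | F (eX g) ≠ F 0}.Countable := by
      have h3 : {g : Ico (0 : ℝ) 1 | F (eX g) ≠ F 0} =
          ⋃ n : ℕ, {g | ¬ dist (F (eX g)) (F 0) < 1 / ((n : ℝ) + 1)} := by
        ext g
        simp only [mem_setOf_eq, mem_iUnion, not_lt]
        constructor
        · intro hne
          obtain ⟨n, hn⟩ := exists_nat_one_div_lt (dist_pos.2 hne)
          exact ⟨n, hn.le⟩
        · rintro ⟨n, hn⟩ heq
          rw [heq, dist_self] at hn
          have : (0 : ℝ) < 1 / ((n : ℝ) + 1) := by positivity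
          linarith
      rw [h3]
      refine countable_iUnion fun n => Finite.countable ?_
      exact (Metric.tendsto_nhds.1 h1) (1 / ((n : ℝ) + 1)) (by positivity)
    refine Countable.mono (fun g hg => ?_) h2
    intro heq
    apply hg
    show F (eX g) ∈ C ↔ F 0 ∈ C
    rw [heq]
  have hset : @MeasurableSet X (weakBaire X) {x : X | (1 / 2 : ℝ) < ‖x‖} := by
    have : @MeasurableSet ℝ (borel ℝ) (Ioi (1 / 2 : ℝ)) := by
      rw [← BorelSpace.measurable_eq (α := ℝ)]
      exact measurableSet_Ioi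
    exact hmeas this
  have h3 : {g : Ico (0 : ℝ) 1 | ¬ (eX g ∈ {x : X | (1 / 2 : ℝ) < ‖x‖} ↔
      (0 : X) ∈ {x : X | (1 / 2 : ℝ) < ‖x‖})}.Countable := hle _ hset
  have h4 : {g : Ico (0 : ℝ) 1 | ¬ (eX g ∈ {x : X | (1 / 2 : ℝ) < ‖x‖} ↔
      (0 : X) ∈ {x : X | (1 / 2 : ℝ) < ‖x‖})} = univ := by
    ext g
    simp only [mem_setOf_eq, norm_eX, norm_zero, mem_univ, iff_true]
    norm_num
  rw [h4, countable_univ_iff] at h3
  exact (not_countable_iff.2 (by
    have : (Ico (0 : ℝ) 1).Countable → False := by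
      intro hc
      have := hc.measure_zero (volume : Measure ℝ)
      rw [Real.volume_Ico] at this
      simp at this
    exact ⟨fun h => this (countable_coe_iff.1 h)⟩)) h3

end Pool.Agent.Q304.WB
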